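import Mathlib

/-!
# Twice semidifferentiable piecewise quadratic functions are piecewise linear-quadratic

Let `f` be a continuous selection of finitely many quadratic functions `q i` which is twice
semidifferentiable everywhere.  If the semiderivative at `y` is not odd, some difference
`q i - q j` vanishes at `y` and is a product of two affine functions.  So on the cells of the
arrangement of the zero sets of these affine functions all semiderivatives are odd, and an argument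
with generic line segments shows that `f` is one single quadratic function on each open cell.
-/

set_option autoImplicit false

namespace Pool.Agent.Results.MP_83d7ff_an.TwiceSemidiffPLQ

open Set Filter Topology

noncomputable section

/-! ### Quadratic functions on a normed space -/

section General

variable {E : Type} [NormedAddCommGroup E] [NormedSpace ℝ E]

/-- quadratic functions `c + L x + B x x` (auxiliary) -/
structure Qd (E : Type) [NormedAddCommGroup E] [NormedSpace ℝ E] where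
  c : ℝ
  L : E →L[ℝ] ℝ
  B : E →L[ℝ] E →L[ℝ] ℝ
  symm : ∀ u v, B u v = B v u

namespace Qd

/-- the value -/
def ev (q : Qd E) (x : E) : ℝ := q.c + q.L x + q.B x x

/-- the derivative -/
def gr (q : Qd E) (y w : E) : ℝ := q.L w + 2 * q.B y w

theorem ev_add (q : Qd E) (y w : E) : q.ev (y + w) = q.ev y + q.gr y w + q.B w w := by
  simp only [ev, gr, map_add, _root_.add_apply]
  rw [q.symm w y]; ring

theorem continuous_ev (q : Qd E) : Continuous q.ev := by
  unfold ev
  exact (continuous_const.add q.L.continuous).add (q.B.continuous.clm_apply continuous_id)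

theorem gr_smul (q : Qd E) (y w : E) (t : ℝ) : q.gr y (t • w) = t * q.gr y w := by
  simp only [gr, map_smul, smul_eq_mul]; ring

theorem gr_add (q : Qd E) (y w w' : E) : q.gr y (w + w') = q.gr y w + q.gr y w' := by
  simp only [gr, map_add]; ring

theorem gr_neg (q : Qd E) (y w : E) : q.gr y (-w) = - q.gr y w := by
  simp only [gr, map_neg]; ring

theorem B_smul (q : Qd E) (w : E) (t : ℝ) : q.B (t • w) (t • w) = t ^ 2 * q.B w w := by
  simp only [map_smul, _root_.smul_apply, smul_eq_mul]; ring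

/-- the difference -/
def sub (p q : Qd E) : Qd E where
  c := p.c - q.c
  L := p.L - q.L
  B := p.B - q.B
  symm u v := by simp [p.symm u v, q.symm u v]

theorem ev_sub (p q : Qd E) (x : E) : (p.sub q).ev x = p.ev x - q.ev x := by
  simp only [ev, sub, _root_.sub_apply]; ring

theorem gr_sub (p q : Qd E) (y w : E) : (p.sub q).gr y w = p.gr y w - q.gr y w := by
  simp only [gr, sub, _root_.sub_apply]; ring

theorem B_sub (p q : Qd E) (u w : E) : (p.sub q).B u w = p.B u w - q.B u w := by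
  simp only [sub, _root_.sub_apply]

/-- products of two affine functions -/
def Fac (q : Qd E) : Prop := ∃ (a a' : E →L[ℝ] ℝ) (β β' : ℝ), ∀ x, q.ev x = (a x + β) * (a' x + β')

end Qd

/-! ### Functions which are quadratic on lines -/

theorem finite_roots (a₀ a₁ a₂ : ℝ) (t₀ : ℝ) (h : a₀ + a₁ * t₀ + a₂ * t₀ ^ 2 ≠ 0) :
    {t : ℝ | a₀ + a₁ * t + a₂ * t ^ 2 = 0}.Finite := by
  have hp : (Polynomial.C a₀ + Polynomial.C a₁ * Polynomial.X +
      Polynomial.C a₂ * Polynomial.X ^ 2 : Polynomial ℝ) ≠ 0 := by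
    intro h0
    apply h
    have := congrArg (Polynomial.eval t₀) h0
    simpa using this
  refine (Polynomial.finite_setOfPred_isRoot hp).subset ?_
  intro t ht
  simpa [Polynomial.IsRoot] using ht

/-- `h` is continuous and a quadratic polynomial on every line -/
def LineQuad (h : E → ℝ) : Prop :=
  Continuous h ∧ ∀ x w : E, ∃ a₀ a₁ a₂ : ℝ, ∀ t : ℝ, h (x + t • w) = a₀ + a₁ * t + a₂ * t ^ 2

theorem LineQuad.isOpen {h : E → ℝ} (hh : LineQuad h) : IsOpen {x | h x ≠ 0} :=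
  isOpen_ne_fun hh.1 continuous_const

theorem LineQuad.dense {h : E → ℝ} (hh : LineQuad h) {p : E} (hp : h p ≠ 0) :
    Dense {x | h x ≠ 0} := by
  intro x
  obtain ⟨a₀, a₁, a₂, ha⟩ := hh.2 x (p - x)
  have h1 : a₀ + a₁ * 1 + a₂ * 1 ^ 2 ≠ 0 := by
    rw [← ha 1]; simpa using hp
  have hf := finite_roots a₀ a₁ a₂ 1 h1
  have h2 : ∀ᶠ t in 𝓝[≠] (0 : ℝ), a₀ + a₁ * t + a₂ * t ^ 2 ≠ 0 :=
    (nhdsNE_le_cofinite (0 : ℝ)) (by
      rw [mem_cofinite]
      convert hf using 1
      ext t; simp)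
  have h3 : Tendsto (fun t : ℝ => x + t • (p - x)) (𝓝[≠] 0) (𝓝 x) := by
    have : Tendsto (fun t : ℝ => x + t • (p - x)) (𝓝 0) (𝓝 (x + (0 : ℝ) • (p - x))) :=
      Continuous.tendsto (by fun_prop) 0
    rw [zero_smul, add_zero] at this
    exact this.mono_left nhdsWithin_le_nhds
  refine mem_closure_of_tendsto h3 ?_
  filter_upwards [h2] with t ht
  show h (x + t • (p - x)) ≠ 0
  rw [ha]; exact ht

theorem Qd.lineQuad (q : Qd E) : LineQuad q.ev := by
  refine ⟨q.continuous_ev, fun x w => ⟨q.ev x, q.gr x w, q.B w w, fun t => ?_⟩⟩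
  rw [q.ev_add, q.gr_smul, q.B_smul]; ring

/-- finitely many open dense sets have a common point in every nonempty open set -/
theorem exists_generic {ι : Type} [Finite ι] {h : ι → E → ℝ} {S : Set ι}
    (hh : ∀ i ∈ S, LineQuad (h i) ∧ ∃ p, h i p ≠ 0) {U : Set E} (hU : IsOpen U)
    (hne : U.Nonempty) : ∃ x ∈ U, ∀ i ∈ S, h i x ≠ 0 := by
  have key : ∀ s : Set ι, s.Finite → s ⊆ S → IsOpen {x | ∀ i ∈ s, h i x ≠ 0} ∧
      Dense {x | ∀ i ∈ s, h i x ≠ 0} := by
    intro s hs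
    induction s, hs using Set.Finite.induction_on with
    | empty => intro _; simp
    | @insert a s ha _ ih =>
      intro hsub
      obtain ⟨h1, h2⟩ := ih (fun i hi => hsub (Set.mem_insert_of_mem a hi))
      obtain ⟨h3, p, hp⟩ := hh a (hsub (Set.mem_insert a s))
      have e : {x | ∀ i ∈ insert a s, h i x ≠ 0} = {x | h a x ≠ 0} ∩ {x | ∀ i ∈ s, h i x ≠ 0} := by
        ext x; simp
      rw [e]
      exact ⟨h3.isOpen.inter h1, (h3.dense hp).inter_of_isOpen_left h2 h3.isOpen⟩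
  obtain ⟨-, h2⟩ := key S (Set.toFinite S) subset_rfl
  obtain ⟨x, hx, hx'⟩ := h2.inter_open_nonempty U hU hne
  exact ⟨x, hx, hx'⟩

/-! ### Semidifferentiability -/

/-- first order: the semiderivative of `f` at `y` is `d` -/
def Semi1 (f : E → ℝ) (y : E) (d : E → ℝ) : Prop :=
  ∀ w, Tendsto (fun p : ℝ × E => (f (y + p.1 • p.2) - f y) / p.1) (𝓝[>] 0 ×ˢ 𝓝 w) (𝓝 (d w))

/-- second order -/
def Semi2 (f : E → ℝ) (y : E) (d d' : E → ℝ) : Prop :=
  ∀ w, Tendsto (fun p : ℝ × E => (f (y + p.1 • p.2) - f y - p.1 * d p.2) / p.1 ^ 2)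
    (𝓝[>] 0 ×ˢ 𝓝 w) (𝓝 (d' w))

theorem tendsto_pair (w : E) : Tendsto (fun τ : ℝ => (τ, w)) (𝓝[>] 0) (𝓝[>] 0 ×ˢ 𝓝 w) :=
  tendsto_id.prodMk tendsto_const_nhds

theorem continuous_of_tendsto {G : ℝ × E → ℝ} {d : E → ℝ}
    (h : ∀ w, Tendsto G (𝓝[>] 0 ×ˢ 𝓝 w) (𝓝 (d w))) : Continuous d := by
  have hconst : ∀ w, Tendsto (fun τ : ℝ => G (τ, w)) (𝓝[>] 0) (𝓝 (d w)) := fun w =>
    (h w).comp (tendsto_pair w)
  rw [continuous_iff_continuousAt]
  intro w
  rw [ContinuousAt, (closed_nhds_basis (d w)).tendsto_right_iff]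
  rintro V ⟨hV, hVc⟩
  have h1 : ∀ᶠ p in 𝓝[>] (0 : ℝ) ×ˢ 𝓝 w, G p ∈ V := (h w).eventually hV
  rw [eventually_prod_iff] at h1
  obtain ⟨pa, hpa, pb, hpb, hab⟩ := h1
  filter_upwards [hpb] with w' hw'
  refine hVc.mem_of_tendsto (hconst w') ?_
  filter_upwards [hpa] with τ hτ
  exact hab hτ hw'

theorem semi1_const {f : E → ℝ} {y : E} {d : E → ℝ} (h : Semi1 f y d) (w : E) :
    Tendsto (fun τ : ℝ => (f (y + τ • w) - f y) / τ) (𝓝[>] 0) (𝓝 (d w)) :=
  (h w).comp (tendsto_pair w)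

theorem semi2_const {f : E → ℝ} {y : E} {d d' : E → ℝ} (h : Semi2 f y d d') (w : E) :
    Tendsto (fun τ : ℝ => (f (y + τ • w) - f y - τ * d w) / τ ^ 2) (𝓝[>] 0) (𝓝 (d' w)) := by
  have h1 := (h w).comp (tendsto_pair w)
  simp only [Function.comp_def] at h1
  exact h1

theorem tendsto_line (y w : E) : Tendsto (fun τ : ℝ => y + τ • w) (𝓝[>] 0) (𝓝 y) := by
  have : Tendsto (fun t : ℝ => y + t • w) (𝓝 0) (𝓝 (y + (0 : ℝ) • w)) :=
    Continuous.tendsto (by fun_prop) 0
  rw [zero_smul, add_zero] at this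
  exact this.mono_left nhdsWithin_le_nhds

/-- If `f = q` at points `y + τ w`, `τ → 0+`, the derivatives of `f` are those of `q`. -/
theorem of_frequently {f : E → ℝ} (hf : Continuous f) {y w : E} {d : E → ℝ}
    (h1 : Semi1 f y d) {q : Qd E}
    (hq : ∃ᶠ τ in 𝓝[>] (0 : ℝ), f (y + τ • w) = q.ev (y + τ • w)) :
    f y = q.ev y ∧ d w = q.gr y w := by
  have e0 : f y = q.ev y :=
    tendsto_nhds_unique_of_frequently_eq ((hf.tendsto y).comp (tendsto_line y w))
      ((q.continuous_ev.tendsto y).comp (tendsto_line y w)) hq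
  refine ⟨e0, ?_⟩
  have h2 : Tendsto (fun τ : ℝ => (q.ev (y + τ • w) - q.ev y) / τ) (𝓝[>] 0) (𝓝 (q.gr y w)) := by
    have : Tendsto (fun τ : ℝ => q.gr y w + τ * q.B w w) (𝓝[>] 0) (𝓝 (q.gr y w + 0 * q.B w w)) :=
      (Continuous.tendsto (by fun_prop) 0).mono_left nhdsWithin_le_nhds
    rw [zero_mul, add_zero] at this
    refine this.congr' ?_
    filter_upwards [self_mem_nhdsWithin] with τ hτ
    have hτ' : τ ≠ 0 := ne_of_gt hτ
    rw [q.ev_add, q.gr_smul, q.B_smul]
    field_simp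
    ring
  refine tendsto_nhds_unique_of_frequently_eq (semi1_const h1 w) h2 (hq.mono fun τ hτ => ?_)
  rw [hτ, e0]

theorem of_frequently2 {f : E → ℝ} (hf : Continuous f) {y w : E} {d d' : E → ℝ}
    (h1 : Semi1 f y d) (h2 : Semi2 f y d d') {q : Qd E}
    (hq : ∃ᶠ τ in 𝓝[>] (0 : ℝ), f (y + τ • w) = q.ev (y + τ • w)) :
    d' w = q.B w w := by
  obtain ⟨e0, e1⟩ := of_frequently hf h1 hq
  refine tendsto_nhds_unique_of_frequently_eq (semi2_const h2 w) (tendsto_const_nhds (x := q.B w w))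
    ((hq.and_eventually self_mem_nhdsWithin).mono fun τ hτ => ?_)
  obtain ⟨hτ, hτ0⟩ := hτ
  have hτ' : τ ≠ 0 := ne_of_gt hτ0
  rw [hτ, e0, e1, q.ev_add, q.gr_smul, q.B_smul]
  field_simp
  ring

/-! ### Kinks -/

theorem gr_continuous (q : Qd E) (y : E) : Continuous (q.gr y) := by
  unfold Qd.gr
  exact q.L.continuous.add (continuous_const.mul (q.B y).continuous)

theorem lineQuad_B (q : Qd E) (P : E → E) (hP : Continuous P)
    (hlin : ∀ x w : E, ∀ t : ℝ, P (x + t • w) = P x + t • P w) :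
    LineQuad fun u => q.B (P u) (P u) := by
  refine ⟨(q.B.continuous.comp hP).clm_apply hP, fun x w => ⟨q.B (P x) (P x),
    2 * q.B (P x) (P w), q.B (P w) (P w), fun t => ?_⟩⟩
  simp only [hlin, map_add, map_smul, _root_.add_apply, _root_.smul_apply, smul_eq_mul]
  rw [q.symm (P w) (P x)]
  ring

variable {ι : Type} [Finite ι]

/-- `f` is a continuous selection of the `q i` -/
def Sel (f : E → ℝ) (q : ι → Qd E) : Prop := Continuous f ∧ ∀ x, ∃ i, f x = (q i).ev x

theorem pigeon {α : Type} {l : Filter α} {P : α → Prop} {R : ι → α → Prop}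
    (hP : ∃ᶠ a in l, P a) (hR : ∀ a, ∃ i, R i a) : ∃ i, ∃ᶠ a in l, P a ∧ R i a := by
  by_contra hcon
  push Not at hcon
  have h2 : ∀ᶠ a in l, ∀ i, P a → ¬ R i a := eventually_all.2 hcon
  refine hP (h2.mono fun a ha hPa => ?_)
  obtain ⟨i, hi⟩ := hR a
  exact ha i hPa hi

theorem exists_index {f : E → ℝ} {q : ι → Qd E} (h : Sel f q) (y w : E) :
    ∃ i, ∃ᶠ τ in 𝓝[>] (0 : ℝ), f (y + τ • w) = (q i).ev (y + τ • w) := by
  obtain ⟨i, hi⟩ := pigeon (ι := ι) (l := 𝓝[>] (0 : ℝ)) (P := fun _ => True)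
    (R := fun i τ => f (y + τ • w) = (q i).ev (y + τ • w))
    (Eventually.frequently (Eventually.of_forall fun _ => trivial)) (fun τ => h.2 _)
  exact ⟨i, hi.mono fun τ hτ => hτ.2⟩

/-- the index `i` carries the derivatives of `f` at `y` in the direction `w` -/
def KK (f : E → ℝ) (q : ι → Qd E) (y : E) (d d' : E → ℝ) (i : ι) (w : E) : Prop :=
  f y = (q i).ev y ∧ d w = (q i).gr y w ∧ d' w = (q i).B w w

theorem KK_closed {f : E → ℝ} {q : ι → Qd E} {y : E} {d d' : E → ℝ} (hd : Continuous d)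
    (hd' : Continuous d') (i : ι) {p : ℝ → E} (hp : Continuous p) :
    IsClosed {θ : ℝ | KK f q y d d' i (p θ)} := by
  unfold KK
  refine isClosed_const.and ?_
  refine (isClosed_eq (hd.comp hp) ((gr_continuous (q i) y).comp hp)).and ?_
  exact isClosed_eq (hd'.comp hp) (((q i).B.continuous.comp hp).clm_apply hp)

theorem kink {f : E → ℝ} {q : ι → Qd E} (h : Sel f q) {y : E} {d d' : E → ℝ}
    (h1 : Semi1 f y d) (h2 : Semi2 f y d d') (hv : ∃ v, d (-v) ≠ - d v) :
    ∃ i j, ((q i).sub (q j)).Fac ∧ ((q i).sub (q j)).ev y = 0 ∧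
      ∃ w, ((q i).sub (q j)).gr y w ≠ 0 := by
  have hd : Continuous d := continuous_of_tendsto h1
  have hd' : Continuous d' := continuous_of_tendsto h2
  -- a generic direction
  obtain ⟨v, hvU, hv1⟩ := exists_generic (ι := ι × ι)
    (h := fun p w => (q p.1).gr y w - (q p.2).gr y w)
    (S := {p | ∃ w, (q p.1).gr y w - (q p.2).gr y w ≠ 0})
    (fun p hp => ⟨⟨(gr_continuous _ y).sub (gr_continuous _ y), fun x w =>
      ⟨(q p.1).gr y x - (q p.2).gr y x, (q p.1).gr y w - (q p.2).gr y w, 0, fun t => by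
        simp only [Qd.gr_add, Qd.gr_smul]; ring⟩⟩, hp⟩)
    (U := {v | d (-v) ≠ - d v}) (isOpen_ne_fun (hd.comp continuous_neg) hd.neg) hv
  have hv2 : ∀ i j, (∃ w, (q i).gr y w ≠ (q j).gr y w) → (q i).gr y v ≠ (q j).gr y v := by
    rintro i j ⟨w, hw⟩
    have := hv1 (i, j) ⟨w, sub_ne_zero.2 hw⟩
    exact sub_ne_zero.1 this
  have hK : ∀ w, ∃ i, KK f q y d d' i w := by
    intro w
    obtain ⟨i, hi⟩ := exists_index h y w
    obtain ⟨e0, e1⟩ := of_frequently h.1 h1 hi
    exact ⟨i, e0, e1, of_frequently2 h.1 h1 h2 hi⟩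
  -- for every `u` some pair
  let P : ι × ι → E → E := fun p u =>
    u - (((q p.1).sub (q p.2)).gr y u / ((q p.1).sub (q p.2)).gr y v) • v
  have hpair : ∀ u, ∃ i j, (q i).gr y v ≠ (q j).gr y v ∧ f y = (q i).ev y ∧ f y = (q j).ev y ∧
      ((q i).sub (q j)).B (P (i, j) u) (P (i, j) u) = 0 := by
    intro u
    by_contra hcon
    push Not at hcon
    let p : ℝ → E := fun θ => Real.cos θ • v + Real.sin θ • u
    have hp : Continuous p := by fun_prop
    obtain ⟨i₀, hi₀⟩ := hK v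
    let A : Set ℝ := ⋃ i ∈ {i : ι | (q i).gr y v = (q i₀).gr y v}, {θ | KK f q y d d' i (p θ)}
    let A' : Set ℝ := ⋃ i ∈ {i : ι | (q i).gr y v ≠ (q i₀).gr y v}, {θ | KK f q y d d' i (p θ)}
    have hA : IsClosed A := (Set.toFinite _).isClosed_biUnion fun i _ => KK_closed hd hd' i hp
    have hA' : IsClosed A' := (Set.toFinite _).isClosed_biUnion fun i _ => KK_closed hd hd' i hp
    have hcov : Icc (0 : ℝ) Real.pi ⊆ A ∪ A' := by
      intro θ _
      obtain ⟨i, hi⟩ := hK (p θ)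
      by_cases hii : (q i).gr y v = (q i₀).gr y v
      · exact Or.inl (mem_biUnion (show i ∈ {i : ι | (q i).gr y v = (q i₀).gr y v} from hii) hi)
      · exact Or.inr (mem_biUnion (show i ∈ {i : ι | (q i).gr y v ≠ (q i₀).gr y v} from hii) hi)
    have hp0 : p 0 = v := by simp [p]
    have hpp : p Real.pi = -v := by simp [p]
    have h0A : (Icc (0 : ℝ) Real.pi ∩ A).Nonempty := by
      refine ⟨0, ⟨le_rfl, Real.pi_pos.le⟩, mem_biUnion (show i₀ ∈ _ from rfl) ?_⟩
      show KK f q y d d' i₀ (p 0)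
      rw [hp0]; exact hi₀
    by_cases hne : (Icc (0 : ℝ) Real.pi ∩ A').Nonempty
    · obtain ⟨θ, hθ, hθA, hθA'⟩ := (isPreconnected_closed_iff.1 isPreconnected_Icc) A A' hA hA'
        hcov h0A hne
      simp only [A, A', mem_iUnion, mem_ofPred_eq, exists_prop] at hθA hθA'
      obtain ⟨i, hi1, hi2⟩ := hθA
      obtain ⟨j, hj1, hj2⟩ := hθA'
      have hij : (q i).gr y v ≠ (q j).gr y v := by
        rw [hi1]; exact fun e => hj1 e.symm
      refine hcon i j hij hi2.1 hj2.1 ?_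
      set φ := (q i).sub (q j) with hφ
      have hgv : φ.gr y v ≠ 0 := by rw [hφ, Qd.gr_sub]; exact sub_ne_zero.2 hij
      have hgw : φ.gr y (p θ) = 0 := by
        rw [hφ, Qd.gr_sub, ← hi2.2.1, ← hj2.2.1, sub_self]
      have hBw : φ.B (p θ) (p θ) = 0 := by
        rw [hφ, Qd.B_sub, ← hi2.2.2, ← hj2.2.2, sub_self]
      have hgw' : Real.cos θ * φ.gr y v + Real.sin θ * φ.gr y u = 0 := by
        rw [← hgw]; simp only [p, Qd.gr_add, Qd.gr_smul]
      have hs : Real.sin θ ≠ 0 := by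
        intro hs
        rw [hs] at hgw'
        have hc : Real.cos θ = 0 := by
          rcases mul_eq_zero.1 (by linarith : Real.cos θ * φ.gr y v = 0) with h3 | h3
          · exact h3
          · exact absurd h3 hgv
        have := Real.sin_sq_add_cos_sq θ
        rw [hs, hc] at this
        norm_num at this
      have hpθ : p θ = Real.sin θ • P (i, j) u := by
        have hc : Real.cos θ = - (Real.sin θ * (φ.gr y u / φ.gr y v)) := by
          field_simp; linarith
        simp only [p, P, ← hφ]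
        rw [hc, smul_sub, smul_smul]
        rw [neg_smul]
        abel
      rw [hpθ, Qd.B_smul] at hBw
      exact (mul_eq_zero.1 hBw).resolve_left (pow_ne_zero 2 hs)
    · have hπ : Real.pi ∈ A := by
        rcases hcov ⟨Real.pi_pos.le, le_rfl⟩ with h3 | h3
        · exact h3
        · exact absurd ⟨Real.pi, ⟨Real.pi_pos.le, le_rfl⟩, h3⟩ hne
      simp only [A, mem_iUnion, mem_ofPred_eq, exists_prop] at hπ
      obtain ⟨i, hi1, hi2⟩ := hπ
      rw [hpp] at hi2
      apply hvU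
      rw [hi2.2.1, Qd.gr_neg, hi1, hi₀.2.1]
  -- one pair works for all `u`
  have hall : ∃ i j, (q i).gr y v ≠ (q j).gr y v ∧ f y = (q i).ev y ∧ f y = (q j).ev y ∧
      ∀ u, ((q i).sub (q j)).B (P (i, j) u) (P (i, j) u) = 0 := by
    by_contra hcon
    push Not at hcon
    obtain ⟨u, -, hu⟩ := exists_generic (ι := ι × ι)
      (h := fun p u => ((q p.1).sub (q p.2)).B (P p u) (P p u))
      (S := {p | (q p.1).gr y v ≠ (q p.2).gr y v ∧ f y = (q p.1).ev y ∧ f y = (q p.2).ev y})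
      (fun p hp => ⟨lineQuad_B _ _ (by
          simp only [P]
          exact continuous_id.sub (((gr_continuous _ y).div_const _).smul continuous_const))
        (by
          intro x w t
          simp only [P, Qd.gr_add, Qd.gr_smul, smul_sub, smul_smul]
          rw [add_div, add_smul, mul_div_assoc]
          abel), hcon p.1 p.2 hp.1 hp.2.1 hp.2.2⟩) isOpen_univ ⟨0, trivial⟩
    obtain ⟨i, j, a1, a2, a3, a4⟩ := hpair u
    exact hu (i, j) ⟨a1, a2, a3⟩ a4
  obtain ⟨i, j, hij, e1, e2, hall⟩ := hall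
  refine ⟨i, j, ?_, ?_, v, ?_⟩
  · set φ := (q i).sub (q j) with hφ
    have hgv : φ.gr y v ≠ 0 := by rw [hφ, Qd.gr_sub]; exact sub_ne_zero.2 hij
    have hy : φ.ev y = 0 := by rw [hφ, Qd.ev_sub, ← e1, ← e2, sub_self]
    let G : E →L[ℝ] ℝ := φ.L + (2 : ℝ) • φ.B y
    have hG : ∀ w, G w = φ.gr y w := fun w => by
      simp only [G, Qd.gr, _root_.add_apply, _root_.smul_apply, smul_eq_mul]
    let M : E →L[ℝ] ℝ := (φ.gr y v)⁻¹ • ((2 : ℝ) • φ.B v - (φ.B v v / φ.gr y v) • G)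
    have hM : ∀ w, M w = (φ.gr y v)⁻¹ * (2 * φ.B v w - φ.B v v / φ.gr y v * φ.gr y w) := fun w => by
      simp only [M, _root_.sub_apply, _root_.smul_apply, smul_eq_mul, hG]
    refine ⟨G, M, - G y, 1 - M y, fun x => ?_⟩
    have e3 : φ.ev x = φ.gr y (x - y) + φ.B (x - y) (x - y) := by
      have := φ.ev_add y (x - y)
      rw [add_sub_cancel, hy, zero_add] at this
      exact this
    have e4 : G x + - G y = φ.gr y (x - y) := by
      rw [← hG, map_sub]; ring
    have e5 : M x + (1 - M y) = 1 + M (x - y) := by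
      rw [map_sub]; ring
    rw [e3, e4, e5, hM]
    have e6 := hall (x - y)
    simp only [P, map_sub, map_smul, _root_.sub_apply, _root_.smul_apply, smul_eq_mul,
      ← hφ] at e6 ⊢
    simp only [φ.symm x v, φ.symm y v, φ.symm y x] at e6 ⊢
    field_simp at e6 ⊢
    linarith
  · rw [Qd.ev_sub, ← e1, ← e2, sub_self]
  · rw [Qd.gr_sub]; exact sub_ne_zero.2 hij

/-! ### Generic segments -/

theorem lineQuad_disc (φ : Qd E) (b : E) :
    LineQuad fun a => (φ.gr b (a - b)) ^ 2 - 4 * φ.ev b * φ.B (a - b) (a - b) := by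
  constructor
  · have hc : Continuous fun a : E => a - b := by fun_prop
    exact (((gr_continuous φ b).comp hc).pow 2).sub
      (continuous_const.mul ((φ.B.continuous.comp hc).clm_apply hc))
  · intro x w
    refine ⟨(φ.gr b (x - b)) ^ 2 - 4 * φ.ev b * φ.B (x - b) (x - b),
      2 * φ.gr b (x - b) * φ.gr b w - 8 * φ.ev b * φ.B (x - b) w,
      (φ.gr b w) ^ 2 - 4 * φ.ev b * φ.B w w, fun t => ?_⟩
    have e : x + t • w - b = (x - b) + t • w := by abel
    simp only [e, Qd.gr_add, Qd.gr_smul, map_add, map_smul, _root_.add_apply, _root_.smul_apply,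
      smul_eq_mul]
    rw [φ.symm w (x - b)]
    ring

theorem fac_of_disc {φ : Qd E} {b : E} (hb : φ.ev b ≠ 0)
    (h : ∀ a, (φ.gr b (a - b)) ^ 2 - 4 * φ.ev b * φ.B (a - b) (a - b) = 0) : φ.Fac := by
  let G : E →L[ℝ] ℝ := φ.L + (2 : ℝ) • φ.B b
  have hG : ∀ w, G w = φ.gr b w := fun w => by
    simp only [G, Qd.gr, _root_.add_apply, _root_.smul_apply, smul_eq_mul]
  refine ⟨(1 / 2 : ℝ) • G, (1 / (2 * φ.ev b)) • G, φ.ev b - 1 / 2 * G b,
    1 - 1 / (2 * φ.ev b) * G b, fun x => ?_⟩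
  have e3 := φ.ev_add b (x - b)
  rw [add_sub_cancel] at e3
  have e4 := h x
  have e5 : φ.gr b (x - b) = G x - G b := by rw [← hG, map_sub]
  rw [e5] at e3 e4
  have e6 : φ.B (x - b) (x - b) = (G x - G b) ^ 2 / (4 * φ.ev b) := by
    field_simp; linarith
  rw [e3, e6]
  simp only [_root_.smul_apply, smul_eq_mul]
  field_simp
  ring

theorem line_arg {f : E → ℝ} {q : ι → Qd E} (h : Sel f q) {C : Set E} (hC : IsOpen C)
    (hconv : Convex ℝ C) (hodd : ∀ y ∈ C, ∃ d, Semi1 f y d ∧ ∀ w, d (-w) = - d w)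
    (hfac : ∀ i j, ((q i).sub (q j)).Fac → (∃ x, ((q i).sub (q j)).ev x ≠ 0) →
      ∀ x ∈ C, ((q i).sub (q j)).ev x ≠ 0) (hne : C.Nonempty) :
    ∃ i, ∀ x ∈ C, f x = (q i).ev x := by
  have hgen : ∀ U : Set E, IsOpen U → U.Nonempty → ∃ x ∈ U,
      ∀ i j, (∃ x, ((q i).sub (q j)).ev x ≠ 0) → ((q i).sub (q j)).ev x ≠ 0 := by
    intro U hU hUne
    obtain ⟨x, hx, hx'⟩ := exists_generic (ι := ι × ι) (h := fun p => ((q p.1).sub (q p.2)).ev)
      (S := {p | ∃ x, ((q p.1).sub (q p.2)).ev x ≠ 0})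
      (fun p hp => ⟨((q p.1).sub (q p.2)).lineQuad, hp⟩) hU hUne
    exact ⟨x, hx, fun i j hij => hx' (i, j) hij⟩
  -- an open set on which `f = q i`
  obtain ⟨x₀, hx₀, hx₀'⟩ := hgen C hC hne
  obtain ⟨i, hi⟩ := h.2 x₀
  have hnear : ∀ᶠ x in 𝓝 x₀, f x = (q i).ev x := by
    have h1 : ∀ j, ∀ᶠ x in 𝓝 x₀, f x = (q j).ev x → f x = (q i).ev x := by
      intro j
      by_cases hj : ∃ x, ((q j).sub (q i)).ev x ≠ 0
      · have h2 := hx₀' j i hj
        rw [Qd.ev_sub, ← hi] at h2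
        have h3 : ∀ᶠ x in 𝓝 x₀, (q j).ev x - f x ≠ 0 :=
          (((q j).continuous_ev.sub h.1).tendsto x₀).eventually (isOpen_ne.mem_nhds h2)
        filter_upwards [h3] with x hx hx1
        exact absurd (sub_eq_zero.2 hx1.symm) hx
      · push Not at hj
        refine Eventually.of_forall fun x hx => ?_
        have := hj x
        rw [Qd.ev_sub] at this
        linarith
    filter_upwards [eventually_all.2 h1] with x hx
    obtain ⟨j, hj⟩ := h.2 x
    exact hx j hj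
  obtain ⟨U, hU, hUo, hUx⟩ := eventually_nhds_iff.1 hnear
  refine ⟨i, ?_⟩
  -- generic points of `C`
  have key : ∀ b ∈ C, (∀ j k, (∃ x, ((q j).sub (q k)).ev x ≠ 0) → ((q j).sub (q k)).ev b ≠ 0) →
      f b = (q i).ev b := by
    intro b hb hbg
    obtain ⟨a, ⟨haU, haC⟩, ha⟩ := exists_generic (ι := ι × ι)
      (h := fun p a => (((q p.1).sub (q p.2)).gr b (a - b)) ^ 2 -
        4 * ((q p.1).sub (q p.2)).ev b * ((q p.1).sub (q p.2)).B (a - b) (a - b))
      (S := {p | ((q p.1).sub (q p.2)).ev b ≠ 0 ∧ ¬ ((q p.1).sub (q p.2)).Fac})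
      (fun p hp => ⟨lineQuad_disc _ _, by
        by_contra hcon
        push Not at hcon
        exact hp.2 (fac_of_disc hp.1 hcon)⟩) (hUo.inter hC) ⟨x₀, hUx, hx₀⟩
    by_contra hbf
    set v := a - b with hv
    let x : ℝ → E := fun t => b + t • v
    have hxc : Continuous x := by fun_prop
    have hx0 : x 0 = b := by simp [x]
    have hx1 : x 1 = a := by simp [x, hv]
    have hxC : ∀ t ∈ Icc (0 : ℝ) 1, x t ∈ C := by
      intro t ht
      have := hconv.add_smul_sub_mem hb haC ht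
      exact this
    let N : Set ℝ := {t | t ∈ Icc (0 : ℝ) 1 ∧ f (x t) ≠ (q i).ev (x t)}
    have h0N : (0 : ℝ) ∈ N := ⟨⟨le_rfl, zero_le_one⟩, by rw [hx0]; exact hbf⟩
    have hbdd : BddAbove N := ⟨1, fun t ht => ht.1.2⟩
    set t₀ := sSup N with ht₀
    have ht0 : 0 ≤ t₀ := le_csSup hbdd h0N
    have ht1 : t₀ ≤ 1 := csSup_le ⟨0, h0N⟩ fun t ht => ht.1.2
    have hlt : t₀ < 1 := by
      have h1 : ∀ᶠ t in 𝓝 (1 : ℝ), x t ∈ U := by
        have : Tendsto x (𝓝 1) (𝓝 a) := by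
          have := hxc.tendsto 1; rwa [hx1] at this
        exact this.eventually (hUo.mem_nhds haU)
      obtain ⟨ε, hε, hball⟩ := Metric.eventually_nhds_iff.1 h1
      refine lt_of_le_of_lt (csSup_le ⟨0, h0N⟩ (a := 1 - min ε 1 / 2) fun t ht => ?_) (by
        have : 0 < min ε 1 := lt_min hε one_pos
        linarith)
      by_contra hcon
      push Not at hcon
      apply ht.2
      apply hU
      apply hball
      rw [Real.dist_eq, abs_lt]
      have h5 : min ε 1 ≤ ε := min_le_left _ _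
      constructor <;> linarith [ht.1.2]
    have hafter : ∀ t, t₀ < t → t ≤ 1 → f (x t) = (q i).ev (x t) := by
      intro t h1 h2
      by_contra hcon
      exact absurd (le_csSup hbdd (show t ∈ N from ⟨⟨ht0.trans h1.le, h2⟩, hcon⟩)) (not_le.2 h1)
    have hxτ : ∀ τ : ℝ, x t₀ + τ • v = x (t₀ + τ) := fun τ => by
      simp only [x, add_smul, add_assoc]
    have hplus : ∀ᶠ τ in 𝓝[>] (0 : ℝ), f (x t₀ + τ • v) = (q i).ev (x t₀ + τ • v) := by
      have : Ioo (0 : ℝ) (1 - t₀) ∈ 𝓝[>] (0 : ℝ) := Ioo_mem_nhdsGT (by linarith)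
      filter_upwards [this] with τ hτ
      rw [hxτ]
      exact hafter _ (by linarith [hτ.1]) (by linarith [hτ.2])
    have hyC : x t₀ ∈ C := hxC t₀ ⟨ht0, ht1⟩
    obtain ⟨d, hd, hdodd⟩ := hodd _ hyC
    obtain ⟨p1, p2⟩ := of_frequently h.1 hd hplus.frequently
    have ht0N : t₀ ∉ N := fun hN => hN.2 p1
    have hminus : ∃ᶠ τ in 𝓝[>] (0 : ℝ), f (x t₀ + τ • (-v)) ≠ (q i).ev (x t₀ + τ • (-v)) := by
      rw [(nhdsGT_basis (0 : ℝ)).frequently_iff]
      intro ε hε
      obtain ⟨t, htN, htt⟩ := exists_lt_of_lt_csSup ⟨0, h0N⟩ (show t₀ - ε < t₀ by linarith)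
      have h5 : t ≤ t₀ := le_csSup hbdd htN
      have h6 : t ≠ t₀ := fun e => ht0N (e ▸ htN)
      refine ⟨t₀ - t, ⟨by linarith [lt_of_le_of_ne h5 h6], by linarith⟩, ?_⟩
      have e : x t₀ + (t₀ - t) • (-v) = x t := by
        have := hxτ (t - t₀)
        rw [add_sub_cancel] at this
        rw [← this, smul_neg, ← neg_smul, neg_sub]
      rw [e]
      exact htN.2
    obtain ⟨k, hk⟩ := pigeon hminus (fun τ => h.2 (x t₀ + τ • (-v)))
    obtain ⟨m1, m2⟩ := of_frequently h.1 hd (hk.mono fun τ hτ => hτ.2)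
    obtain ⟨τ, hτ1, hτ2⟩ := hk.exists
    have hφne : ∃ x, ((q k).sub (q i)).ev x ≠ 0 :=
      ⟨x t₀ + τ • (-v), by rw [Qd.ev_sub, ← hτ2]; exact sub_ne_zero.2 hτ1⟩
    have hnf : ¬ ((q k).sub (q i)).Fac := fun hF => by
      refine hfac k i hF hφne _ hyC ?_
      rw [Qd.ev_sub, ← m1, ← p1, sub_self]
    have hdisc := ha (k, i) ⟨hbg k i hφne, hnf⟩
    simp only at hdisc
    set φ := (q k).sub (q i) with hφ
    have f1 : φ.ev b + t₀ * φ.gr b v + t₀ ^ 2 * φ.B v v = 0 := by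
      have : φ.ev (x t₀) = 0 := by rw [hφ, Qd.ev_sub, ← m1, ← p1, sub_self]
      rw [← this]
      simp only [x]
      rw [φ.ev_add, φ.gr_smul, φ.B_smul]
    have f2 : φ.gr b v + 2 * t₀ * φ.B v v = 0 := by
      have h7 := hdodd v
      rw [m2, p2, Qd.gr_neg, neg_inj] at h7
      have : φ.gr (x t₀) v = 0 := by rw [hφ, Qd.gr_sub, h7, sub_self]
      rw [← this]
      simp only [x, Qd.gr, map_add, map_smul, _root_.add_apply, _root_.smul_apply, smul_eq_mul]
      ring
    apply hdisc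
    have f3 : φ.gr b v = - (2 * t₀ * φ.B v v) := by linarith
    have f4 : φ.ev b = t₀ ^ 2 * φ.B v v := by rw [f3] at f1; linarith
    rw [f3, f4]
    ring
  -- density
  intro b hb
  have hcl : IsClosed {x | f x = (q i).ev x} := isClosed_eq h.1 (q i).continuous_ev
  by_contra hbf
  obtain ⟨x, ⟨hx1, hx2⟩, hx3⟩ := hgen (C ∩ {x | f x = (q i).ev x}ᶜ)
    (hC.inter hcl.isOpen_compl) ⟨b, hb, hbf⟩
  exact hx2 (key x hx1 hx3)

/-! ### Cells -/

/-- the semiderivatives exist -/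
def TwoSemi (f : E → ℝ) (y : E) : Prop := ∃ d d', Semi1 f y d ∧ Semi2 f y d d'

/-- On a nonempty intersection of open half-spaces avoiding the factors, `f` is quadratic. -/
theorem cell {f : E → ℝ} {q : ι → Qd E} (h : Sel f q) (hs : ∀ y, TwoSemi f y) {C : Set E}
    (hC : IsOpen C) (hconv : Convex ℝ C)
    (hfac : ∀ i j, ((q i).sub (q j)).Fac → (∃ x, ((q i).sub (q j)).ev x ≠ 0) →
      ∀ x ∈ C, ((q i).sub (q j)).ev x ≠ 0) (hne : C.Nonempty) :
    ∃ i, ∀ x ∈ C, f x = (q i).ev x := by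
  refine line_arg h hC hconv (fun y hy => ?_) hfac hne
  obtain ⟨d, d', h1, h2⟩ := hs y
  refine ⟨d, h1, ?_⟩
  by_contra hcon
  push Not at hcon
  obtain ⟨i, j, hF, h0, w, hw⟩ := kink h h1 h2 hcon
  refine hfac i j hF ?_ y hy h0
  by_contra hall
  push Not at hall
  apply hw
  have e1 := ((q i).sub (q j)).ev_add y w
  have e2 := ((q i).sub (q j)).ev_add y (-w)
  rw [hall, hall] at e1 e2
  rw [Qd.gr_neg] at e2
  simp only [map_neg, _root_.neg_apply, neg_neg] at e2
  linarith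

/-- The family of affine functions: nonconstant or nonzero. -/
theorem exists_affine (q : ι → Qd E) : ∃ (a : ι × ι × Bool → E →L[ℝ] ℝ) (β : ι × ι × Bool → ℝ),
    (∀ κ, ∃ x, a κ x + β κ ≠ 0) ∧
    ∀ i j, ((q i).sub (q j)).Fac → (∃ x, ((q i).sub (q j)).ev x ≠ 0) → ∀ x,
      (∀ κ, a κ x + β κ ≠ 0) → ((q i).sub (q j)).ev x ≠ 0 := by
  classical
  have h1 : ∀ p : ι × ι, ∃ (a a' : E →L[ℝ] ℝ) (β β' : ℝ), (∃ x, a x + β ≠ 0) ∧
      (∃ x, a' x + β' ≠ 0) ∧ (((q p.1).sub (q p.2)).Fac → (∃ x, ((q p.1).sub (q p.2)).ev x ≠ 0) →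
        ∀ x, ((q p.1).sub (q p.2)).ev x = (a x + β) * (a' x + β')) := by
    intro p
    by_cases hp : ((q p.1).sub (q p.2)).Fac ∧ ∃ x, ((q p.1).sub (q p.2)).ev x ≠ 0
    · obtain ⟨⟨a, a', β, β', hF⟩, x, hx⟩ := hp
      rw [hF] at hx
      exact ⟨a, a', β, β', ⟨x, left_ne_zero_of_mul hx⟩, ⟨x, right_ne_zero_of_mul hx⟩,
        fun _ _ => hF⟩
    · exact ⟨0, 0, 1, 1, ⟨0, by simp⟩, ⟨0, by simp⟩, fun h3 h4 => absurd ⟨h3, h4⟩ hp⟩
  choose a a' β β' h2 h3 h4 using h1
  refine ⟨fun κ => if κ.2.2 then a (κ.1, κ.2.1) else a' (κ.1, κ.2.1),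
    fun κ => if κ.2.2 then β (κ.1, κ.2.1) else β' (κ.1, κ.2.1), ?_, ?_⟩
  · rintro ⟨i, j, b⟩
    cases b
    · simpa using h3 (i, j)
    · simpa using h2 (i, j)
  · intro i j hF hne x hx
    rw [h4 (i, j) hF hne x]
    have e1 := hx (i, j, true)
    have e2 := hx (i, j, false)
    simp only [if_true, Bool.false_eq_true, if_false] at e1 e2
    exact mul_ne_zero e1 e2

end General

/-! ### The definitions of the statement -/

/-- `q x = 1/2 x^T Q x + b^T x + c` -/
def IsQuadratic {n : ℕ} (q : EuclideanSpace ℝ (Fin n) → ℝ) : Prop :=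
  ∃ (Q : Fin n → Fin n → ℝ) (b : Fin n → ℝ) (c : ℝ), ∀ x,
    q x = 1 / 2 * ∑ i, ∑ j, Q i j * x i * x j + ∑ i, b i * x i + c

/-- intersections of finitely many closed half-spaces -/
def IsPolyhedron {n : ℕ} (P : Set (EuclideanSpace ℝ (Fin n))) : Prop :=
  ∃ (m : ℕ) (a : Fin m → EuclideanSpace ℝ (Fin n)) (β : Fin m → ℝ),
    (∀ k, a k ≠ 0) ∧ P = {x | ∀ k, inner ℝ (a k) x ≤ β k}

/-- piecewise quadratic: continuous, and a selection of finitely many quadratic functions -/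
def IsPQ {n : ℕ} (f : EuclideanSpace ℝ (Fin n) → ℝ) : Prop :=
  Continuous f ∧ ∃ (I : ℕ) (q : Fin I → EuclideanSpace ℝ (Fin n) → ℝ),
    (∀ i, IsQuadratic (q i)) ∧ ∀ x, ∃ i, f x = q i x

/-- piecewise linear-quadratic: continuous, and quadratic on each of finitely many polyhedra that
cover the space -/
def IsPLQ {n : ℕ} (f : EuclideanSpace ℝ (Fin n) → ℝ) : Prop :=
  Continuous f ∧ ∃ (I : ℕ) (q : Fin I → EuclideanSpace ℝ (Fin n) → ℝ)
    (P : Fin I → Set (EuclideanSpace ℝ (Fin n))),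
    (∀ i, IsQuadratic (q i)) ∧ (∀ i, IsPolyhedron (P i)) ∧ (⋃ i, P i) = univ ∧
      ∀ i, ∀ x ∈ P i, f x = q i x

/-- `f` is twice semidifferentiable at `x`: the limits
`d v = lim (f (x + τ v') - f x) / τ` and
`d' w = lim (f (x + τ w') - f x - τ d w') / τ ^ 2` exist, as `τ ↓ 0` and `v' → v`, `w' → w`. -/
def TwiceSemidifferentiableAt {n : ℕ} (f : EuclideanSpace ℝ (Fin n) → ℝ)
    (x : EuclideanSpace ℝ (Fin n)) : Prop :=
  ∃ d d' : EuclideanSpace ℝ (Fin n) → ℝ,
    (∀ v, Tendsto (fun p : ℝ × EuclideanSpace ℝ (Fin n) => (f (x + p.1 • p.2) - f x) / p.1)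
      (𝓝[>] 0 ×ˢ 𝓝 v) (𝓝 (d v))) ∧
    ∀ w, Tendsto (fun p : ℝ × EuclideanSpace ℝ (Fin n) =>
      (f (x + p.1 • p.2) - f x - p.1 * d p.2) / p.1 ^ 2) (𝓝[>] 0 ×ˢ 𝓝 w) (𝓝 (d' w))

/-! ### The result -/

theorem IsQuadratic.exists_Qd {n : ℕ} {q : EuclideanSpace ℝ (Fin n) → ℝ} (h : IsQuadratic q) :
    ∃ p : Qd (EuclideanSpace ℝ (Fin n)), ∀ x, q x = p.ev x := by
  obtain ⟨Q, b, c, hq⟩ := h
  let pr : Fin n → EuclideanSpace ℝ (Fin n) →L[ℝ] ℝ := fun i => EuclideanSpace.proj i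
  have hpr : ∀ i x, pr i x = x i := fun i x => rfl
  let B : EuclideanSpace ℝ (Fin n) →L[ℝ] EuclideanSpace ℝ (Fin n) →L[ℝ] ℝ :=
    ∑ i, ∑ j, (Q i j / 4) • ((pr i).smulRight (pr j) + (pr j).smulRight (pr i))
  have hB : ∀ x y, B x y = ∑ i, ∑ j, Q i j / 4 * (x i * y j + x j * y i) := by
    intro x y
    simp only [B, _root_.sum_apply, _root_.smul_apply, _root_.add_apply,
      ContinuousLinearMap.smulRight_apply, smul_eq_mul, hpr]
  refine ⟨⟨c, ∑ i, b i • pr i, B, ?_⟩, ?_⟩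
  · intro x y
    rw [hB, hB]
    refine Finset.sum_congr rfl fun i _ => Finset.sum_congr rfl fun j _ => ?_
    ring
  · intro x
    rw [hq]
    simp only [Qd.ev]
    rw [hB]
    simp only [_root_.sum_apply, _root_.smul_apply, smul_eq_mul, hpr]
    have : ∑ i, ∑ j, Q i j / 4 * (x i * x j + x j * x i) =
        1 / 2 * ∑ i, ∑ j, Q i j * x i * x j := by
      rw [Finset.mul_sum]
      refine Finset.sum_congr rfl fun i _ => ?_
      rw [Finset.mul_sum]
      refine Finset.sum_congr rfl fun j _ => ?_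
      ring
    rw [this]
    ring

/-- the sign of a Boolean -/
def sg (b : Bool) : ℝ := if b then 1 else -1

theorem sg_ne (b : Bool) : sg b ≠ 0 := by cases b <;> simp [sg]

theorem isPolyhedron_of_finite {n : ℕ} {κ : Type} [Finite κ]
    (a : κ → EuclideanSpace ℝ (Fin n) →L[ℝ] ℝ) (β : κ → ℝ) (x₀ : EuclideanSpace ℝ (Fin n))
    (hx₀ : ∀ k, 0 ≤ a k x₀ + β k) : IsPolyhedron {x | ∀ k, 0 ≤ a k x + β k} := by
  classical
  let S := {k : κ // a k ≠ 0}
  obtain ⟨m, ⟨e⟩⟩ := Finite.exists_equiv_fin S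
  refine ⟨m, fun k => -(InnerProductSpace.toDual ℝ _).symm (a (e.symm k).1),
    fun k => β (e.symm k).1, ?_, ?_⟩
  · intro k h
    apply (e.symm k).2
    rw [neg_eq_zero] at h
    exact (LinearIsometryEquiv.map_eq_zero_iff _).1 h
  · ext x
    simp only [mem_ofPred_eq, inner_neg_left, InnerProductSpace.toDual_symm_apply]
    constructor
    · intro h k
      linarith [h (e.symm k).1]
    · intro h k
      by_cases hk : a k = 0
      · have := hx₀ k
        rw [hk] at this ⊢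
        simpa using this
      · have := h (e ⟨k, hk⟩)
        rw [Equiv.symm_apply_apply] at this
        simp only at this
        linarith

/-- Every piecewise quadratic function on `ℝ^n` that is twice semidifferentiable at every point
is piecewise linear-quadratic. -/
theorem result (n : ℕ) (f : EuclideanSpace ℝ (Fin n) → ℝ) (hf : IsPQ f)
    (h : ∀ x, TwiceSemidifferentiableAt f x) : IsPLQ f := by
  classical
  obtain ⟨hc, I, q₀, hq₀, hsel⟩ := hf
  choose q hq using fun i => (hq₀ i).exists_Qd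
  have hS : Sel f q := ⟨hc, fun x => by
    obtain ⟨i, hi⟩ := hsel x
    exact ⟨i, by rw [hi, hq]⟩⟩
  have hT : ∀ y, TwoSemi f y := fun y => by
    obtain ⟨d, d', h1, h2⟩ := h y
    exact ⟨d, d', h1, h2⟩
  obtain ⟨a, β, hne, hfac⟩ := exists_affine q
  -- open and closed cells
  let K := Fin I × Fin I × Bool
  let C : (K → Bool) → Set (EuclideanSpace ℝ (Fin n)) := fun σ =>
    {x | ∀ κ, 0 < sg (σ κ) * (a κ x + β κ)}
  let P : (K → Bool) → Set (EuclideanSpace ℝ (Fin n)) := fun σ =>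
    {x | ∀ κ, 0 ≤ sg (σ κ) * (a κ x + β κ)}
  have hCopen : ∀ σ, IsOpen (C σ) := by
    intro σ
    have : C σ = ⋂ κ, {x | 0 < sg (σ κ) * (a κ x + β κ)} := by ext x; simp [C]
    rw [this]
    refine isOpen_iInter_of_finite fun κ => isOpen_lt continuous_const ?_
    fun_prop
  have haff : ∀ κ x y (s t : ℝ), s + t = 1 → a κ (s • x + t • y) + β κ =
      s * (a κ x + β κ) + t * (a κ y + β κ) := by
    intro κ x y s t hst
    simp only [map_add, map_smul, smul_eq_mul]
    have : β κ = (s + t) * β κ := by rw [hst, one_mul]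
    nlinarith
  have hCconv : ∀ σ, Convex ℝ (C σ) := by
    intro σ x hx y hy s t hs ht hst κ
    rw [haff κ x y s t hst, mul_add]
    have h1 := hx κ
    have h2 := hy κ
    have e : sg (σ κ) * (s * (a κ x + β κ)) + sg (σ κ) * (t * (a κ y + β κ)) =
      s * (sg (σ κ) * (a κ x + β κ)) + t * (sg (σ κ) * (a κ y + β κ)) := by ring
    rw [e]
    rcases hs.lt_or_eq with h3 | h3
    · exact add_pos_of_pos_of_nonneg (mul_pos h3 h1) (mul_nonneg ht h2.le)
    · have : 0 < t := by rw [← h3, zero_add] at hst; linarith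
      exact add_pos_of_nonneg_of_pos (mul_nonneg hs h1.le) (mul_pos this h2)
  have hquad : ∀ σ, (C σ).Nonempty → ∃ i, ∀ x ∈ P σ, f x = (q i).ev x := by
    rintro σ ⟨c, hcσ⟩
    obtain ⟨i, hi⟩ := cell hS hT (hCopen σ) (hCconv σ) (fun i j hF hne' x hx =>
      hfac i j hF hne' x fun κ hκ => by
        have := hx κ
        rw [hκ, mul_zero] at this
        exact lt_irrefl _ this) ⟨c, hcσ⟩
    refine ⟨i, fun x hx => ?_⟩
    have hcl : IsClosed {x | f x = (q i).ev x} := isClosed_eq hc (q i).continuous_ev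
    have ht : Tendsto (fun t : ℝ => (1 - t) • x + t • c) (𝓝[>] 0) (𝓝 x) := by
      have : Tendsto (fun t : ℝ => (1 - t) • x + t • c) (𝓝 0)
          (𝓝 ((1 - (0 : ℝ)) • x + (0 : ℝ) • c)) := Continuous.tendsto (by fun_prop) 0
      rw [sub_zero, one_smul, zero_smul, add_zero] at this
      exact this.mono_left nhdsWithin_le_nhds
    refine hcl.mem_of_tendsto ht ?_
    have : Ioo (0 : ℝ) 1 ∈ 𝓝[>] (0 : ℝ) := Ioo_mem_nhdsGT one_pos
    filter_upwards [this] with t ht
    refine hi _ fun κ => ?_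
    rw [haff κ x c (1 - t) t (by ring)]
    have h1 := hx κ
    have h2 := hcσ κ
    have e : sg (σ κ) * ((1 - t) * (a κ x + β κ) + t * (a κ c + β κ)) =
      (1 - t) * (sg (σ κ) * (a κ x + β κ)) + t * (sg (σ κ) * (a κ c + β κ)) := by ring
    rw [e]
    exact add_pos_of_nonneg_of_pos (mul_nonneg (by linarith [ht.2]) h1) (mul_pos ht.1 h2)
  -- the cells cover
  have hcover : ∀ x, ∃ σ, (C σ).Nonempty ∧ x ∈ P σ := by
    intro x
    obtain ⟨c, -, hcn⟩ := exists_generic (ι := K) (h := fun κ x => a κ x + β κ) (S := univ)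
      (fun κ _ => ⟨⟨by fun_prop, fun x w => ⟨a κ x + β κ, a κ w, 0, fun t => by
        simp only [map_add, map_smul, smul_eq_mul]; ring⟩⟩, hne κ⟩) isOpen_univ ⟨x, trivial⟩
    have hfin : ∀ κ, ∀ᶠ t in 𝓝[>] (0 : ℝ),
        ∃ b : Bool, 0 < sg b * (a κ ((1 - t) • x + t • c) + β κ) ∧ 0 ≤ sg b * (a κ x + β κ) := by
      intro κ
      have hcκ : a κ c + β κ ≠ 0 := hcn κ trivial
      rcases lt_trichotomy (a κ x + β κ) 0 with h1 | h1 | h1
      · have ht : Tendsto (fun t : ℝ => a κ ((1 - t) • x + t • c) + β κ) (𝓝[>] 0)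
            (𝓝 (a κ x + β κ)) := by
          have : Tendsto (fun t : ℝ => a κ ((1 - t) • x + t • c) + β κ) (𝓝 0)
            (𝓝 (a κ ((1 - (0 : ℝ)) • x + (0 : ℝ) • c) + β κ)) := Continuous.tendsto (by fun_prop) 0
          rw [sub_zero, one_smul, zero_smul, add_zero] at this
          exact this.mono_left nhdsWithin_le_nhds
        filter_upwards [ht.eventually (gt_mem_nhds h1)] with t ht
        refine ⟨false, ?_, ?_⟩ <;> simp only [sg, Bool.false_eq_true, if_false] <;> linarith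
      · have : Ioo (0 : ℝ) 1 ∈ 𝓝[>] (0 : ℝ) := Ioo_mem_nhdsGT one_pos
        filter_upwards [this] with t ht
        rw [haff κ x c (1 - t) t (by ring), h1, mul_zero, zero_add]
        rcases lt_or_gt_of_ne hcκ with h2 | h2
        · refine ⟨false, ?_, ?_⟩ <;> simp only [sg, Bool.false_eq_true, if_false]
          · have := mul_neg_of_pos_of_neg ht.1 h2
            linarith
          · simp
        · refine ⟨true, ?_, ?_⟩ <;> simp only [sg, if_true]
          · have := mul_pos ht.1 h2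
            linarith
          · simp
      · have ht : Tendsto (fun t : ℝ => a κ ((1 - t) • x + t • c) + β κ) (𝓝[>] 0)
            (𝓝 (a κ x + β κ)) := by
          have : Tendsto (fun t : ℝ => a κ ((1 - t) • x + t • c) + β κ) (𝓝 0)
            (𝓝 (a κ ((1 - (0 : ℝ)) • x + (0 : ℝ) • c) + β κ)) := Continuous.tendsto (by fun_prop) 0
          rw [sub_zero, one_smul, zero_smul, add_zero] at this
          exact this.mono_left nhdsWithin_le_nhds
        filter_upwards [ht.eventually (lt_mem_nhds h1)] with t ht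
        refine ⟨true, ?_, ?_⟩ <;> simp only [sg, if_true] <;> linarith
    obtain ⟨t, ht⟩ := (eventually_all.2 hfin).exists
    choose σ hσ using ht
    exact ⟨σ, ⟨_, fun κ => (hσ κ).1⟩, fun κ => (hσ κ).2⟩
  -- the pieces
  let T := {σ : K → Bool // (C σ).Nonempty}
  obtain ⟨m, ⟨e⟩⟩ := Finite.exists_equiv_fin T
  choose idx hidx using hquad
  refine ⟨hc, m, fun k => q₀ (idx (e.symm k).1 (e.symm k).2), fun k => P (e.symm k).1,
    fun k => hq₀ _, fun k => ?_, ?_, fun k x hx => ?_⟩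
  · obtain ⟨c, hcσ⟩ := (e.symm k).2
    have := isPolyhedron_of_finite (κ := K) (fun κ => sg ((e.symm k).1 κ) • a κ)
      (fun κ => sg ((e.symm k).1 κ) * β κ) c (fun κ => by
        have := (hcσ κ).le
        simp only [_root_.smul_apply, smul_eq_mul]
        linarith)
    convert this using 1
    ext x
    simp only [P, mem_ofPred_eq, _root_.smul_apply, smul_eq_mul, mul_add]
  · rw [eq_univ_iff_forall]
    intro x
    obtain ⟨σ, hσ1, hσ2⟩ := hcover x
    refine mem_iUnion.2 ⟨e ⟨σ, hσ1⟩, ?_⟩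
    rw [Equiv.symm_apply_apply]
    exact hσ2
  · have h5 := hidx _ (e.symm k).2 x hx
    rw [← hq] at h5
    exact h5

end

end Pool.Agent.Results.MP_83d7ff_an.TwiceSemidiffPLQ
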